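import Mathlib

namespace Pool.Agent.Results.MP_3da5e8_co.Only

open Finset

/-- Every graph with `n` vertices and `e` edges has 9 vertices spanning exactly 18 edges. -/
def Forces (n e : ℕ) : Prop :=
  ∀ (V : Type) [Fintype V] (G : SimpleGraph V), Fintype.card V = n → G.edgeSet.ncard = e →
    ∃ S : Finset V, S.card = 9 ∧ {x ∈ G.edgeSet | ∀ v ∈ x, v ∈ S}.ncard = 18

def KA {V : Type} [DecidableEq V] (T : Finset V) : Finset (Sym2 V) :=
  T.offDiag.image Sym2.mk.uncurry

lemma mem_KA {V : Type} [DecidableEq V] {T : Finset V} {a b : V} :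
    s(a, b) ∈ KA T ↔ a ∈ T ∧ b ∈ T ∧ a ≠ b := by
  simp only [KA, mem_image, mem_offDiag, Prod.exists, Function.uncurry_apply_pair, Sym2.eq_iff]
  constructor
  · rintro ⟨x, y, ⟨h1, h2, h3⟩, ⟨rfl, rfl⟩ | ⟨rfl, rfl⟩⟩
    exacts [⟨h1, h2, h3⟩, ⟨h2, h1, h3.symm⟩]
  · exact fun h => ⟨a, b, h, Or.inl ⟨rfl, rfl⟩⟩

lemma card_KA {V : Type} [DecidableEq V] (T : Finset V) : (KA T).card = T.card.choose 2 :=
  Sym2.card_image_offDiag T

lemma KA_mono {V : Type} [DecidableEq V] {S T : Finset V} (h : S ⊆ T) : KA S ⊆ KA T := by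
  intro x
  induction x using Sym2.ind with
  | _ a b =>
    simp only [mem_KA]
    exact fun ⟨h1, h2, h3⟩ => ⟨h h1, h h2, h3⟩

def Av (n e : ℕ) : Prop :=
  ∃ (V : Type) (_ : Fintype V) (_ : DecidableEq V) (F : Finset (Sym2 V)), Fintype.card V = n ∧
    F ⊆ KA univ ∧ F.card = e ∧ ∀ S : Finset V, S.card = 9 → (F ∩ KA S).card ≠ 18

lemma Av.not {n e : ℕ} (h : Av n e) : ¬ Forces n e := by
  obtain ⟨V, _, _, F, h1, h2, h3, h4⟩ := h
  intro hf
  have he : (SimpleGraph.fromEdgeSet (F : Set (Sym2 V))).edgeSet = F := by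
    ext x
    induction x using Sym2.ind with
    | _ a b =>
      simp only [SimpleGraph.mem_edgeSet, SimpleGraph.fromEdgeSet_adj, mem_coe]
      exact ⟨fun h => h.1, fun h => ⟨h, (mem_KA.1 (h2 h)).2.2⟩⟩
  obtain ⟨S, s1, s2⟩ := hf V (SimpleGraph.fromEdgeSet F) h1 (by rw [he, Set.ncard_coe_finset, h3])
  refine h4 S s1 ?_
  rw [← s2, he, ← Set.ncard_coe_finset]
  congr 1
  ext x
  induction x using Sym2.ind with
  | _ a b =>
    simp only [coe_inter, Set.mem_inter_iff, mem_coe, mem_KA, Set.mem_ofPred_eq, Sym2.mem_iff,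
      forall_eq_or_imp, forall_eq]
    exact ⟨fun h => ⟨h.1, h.2.1, h.2.2.1⟩,
      fun h => ⟨h.1, h.2.1, h.2.2, (mem_KA.1 (h2 h.1)).2.2⟩⟩

lemma Av.compl {n e : ℕ} (h : Av n e) : Av n (n.choose 2 - e) := by
  obtain ⟨V, _, _, F, h1, h2, h3, h4⟩ := h
  refine ⟨V, inferInstance, inferInstance, KA univ \ F, h1, sdiff_subset, ?_, fun S hS h => ?_⟩
  · rw [card_sdiff_of_subset h2, card_KA, card_univ, h1, h3]
  · have a1 : (KA univ \ F) ∩ KA S = KA S \ F := by
      ext x
      simp only [mem_inter, mem_sdiff]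
      exact ⟨fun h => ⟨h.2, h.1.2⟩, fun h => ⟨⟨KA_mono (subset_univ _) h.1, h.2⟩, h.1⟩⟩
    have a2 := card_sdiff_add_card_inter (KA S) F
    rw [← a1, h, card_KA, hS, inter_comm] at a2
    refine h4 S hS ?_
    have : Nat.choose 9 2 = 36 := by decide
    omega

lemma bip {β γ : Type} [DecidableEq β] (r : β → γ → Prop) [DecidableRel r] (P : Finset β)
    (Q : Finset γ) (hQ : 5 ≤ Q.card)
    (h : ∀ x x', x ≠ x' → (Q.filter fun y => r x y ∧ r x' y).card ≤ 4) :
    ∑ x ∈ P, (Q.filter (r x)).card ≤ P.card * (Q.card - 1) + 1 := by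
  have a1 : ∀ x ∈ P, (Q.filter (r x)).card ≤
      (Q.card - 1) + if (Q.filter (r x)).card = Q.card then 1 else 0 := by
    intro x _
    have := card_filter_le Q (r x)
    split_ifs <;> omega
  refine (sum_le_sum a1).trans ?_
  rw [sum_add_distrib, sum_const, smul_eq_mul, ← card_filter]
  refine Nat.add_le_add_left (card_le_one.2 fun a ha b hb => ?_) _
  by_contra hne
  have h1 := card_filter_eq_iff.1 (mem_filter.1 ha).2
  have h2 := card_filter_eq_iff.1 (mem_filter.1 hb).2
  have h3 := h a b hne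
  rw [filter_true_of_mem fun y hy => ⟨h1 y hy, h2 y hy⟩] at h3
  omega

lemma gen {α β γ : Type} [Fintype α] [Fintype β] [Fintype γ] [DecidableEq α] [DecidableEq β]
    [DecidableEq γ] (r : β → γ → Prop) [DecidableRel r]
    (h1 : ∀ x x', x ≠ x' → (univ.filter fun y => r x y ∧ r x' y).card ≤ 4)
    (h2 : ∀ y y', y ≠ y' → (univ.filter fun x => r x y ∧ r x y').card ≤ 4) (e : ℕ)
    (e1 : (Fintype.card α).choose 2 ≤ e + 2)
    (e2 : e ≤ (Fintype.card α).choose 2 + ∑ x, (univ.filter (r x)).card) :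
    Av (Fintype.card α + (Fintype.card β + Fintype.card γ)) e := by
  let em : α ↪ α ⊕ β ⊕ γ := Function.Embedding.inl
  let B : Finset β → Finset γ → Finset (Sym2 (α ⊕ β ⊕ γ)) := fun P Q =>
    ((P ×ˢ Q).filter fun z => r z.1 z.2).image fun z => s(.inr (.inl z.1), .inr (.inr z.2))
  have hB : ∀ P Q, (B P Q).card = ∑ x ∈ P, (Q.filter (r x)).card := by
    intro P Q
    rw [card_image_of_injective _ (fun z w h => by simpa [Prod.ext_iff] using h), card_filter,
      sum_product]
    simp only [card_filter]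
  have hB' : ∀ P Q, (B P Q).card = ∑ y ∈ Q, (P.filter (r · y)).card := by
    intro P Q
    rw [hB]
    simp only [card_filter]
    exact sum_comm
  have hd : Disjoint (KA (univ.map em)) (B univ univ) := by
    rw [disjoint_right]
    intro x hx hx'
    obtain ⟨z, -, rfl⟩ := mem_image.1 hx
    simpa [em] using (mem_KA.1 hx').1
  have hK : (KA (univ.map em)).card = (Fintype.card α).choose 2 := by
    rw [card_KA, card_map, card_univ]
  obtain ⟨L, hL1, hL2⟩ := exists_subset_card_eq (s := KA (univ.map em))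
    (n := (Fintype.card α).choose 2 - 2) (by omega)
  obtain ⟨F, f1, f2, f3⟩ := exists_subsuperset_card_eq (n := e)
    (hL1.trans (subset_union_left (s₂ := B univ univ))) (by omega)
    (by rw [card_union_of_disjoint hd, hK, hB]; exact e2)
  refine ⟨_, inferInstance, inferInstance, F, by simp, ?_, f3, fun S hS h => ?_⟩
  · refine f2.trans (union_subset (KA_mono (subset_univ _)) fun x hx => ?_)
    obtain ⟨z, -, rfl⟩ := mem_image.1 hx
    simp [mem_KA]
  have up : F ∩ KA S ⊆ KA (S.toLeft.map em) ∪ B S.toRight.toLeft S.toRight.toRight := by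
    intro x hx
    obtain ⟨hx1, hx2⟩ := mem_inter.1 hx
    rcases mem_union.1 (f2 hx1) with hx3 | hx3
    · refine mem_union_left _ ?_
      induction x using Sym2.ind with
      | _ a b =>
        rw [mem_KA] at hx2 hx3 ⊢
        obtain ⟨a, -, rfl⟩ := mem_map.1 hx3.1
        obtain ⟨b, -, rfl⟩ := mem_map.1 hx3.2.1
        exact ⟨mem_map_of_mem _ (mem_toLeft.2 hx2.1), mem_map_of_mem _ (mem_toLeft.2 hx2.2.1),
          hx2.2.2⟩
    · refine mem_union_right _ ?_
      obtain ⟨z, hz, rfl⟩ := mem_image.1 hx3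
      rw [mem_KA] at hx2
      refine mem_image.2 ⟨z, ?_, rfl⟩
      simp only [mem_filter, mem_product, mem_toLeft, mem_toRight] at hz ⊢
      exact ⟨⟨hx2.1, hx2.2.1⟩, hz.2⟩
  have lo : KA (S.toLeft.map em) ⊆ (F ∩ KA S) ∪ (KA (univ.map em) \ L) := by
    intro x hx
    have x1 : x ∈ KA S := KA_mono (fun a ha => by
      obtain ⟨b, hb, rfl⟩ := mem_map.1 ha
      exact mem_toLeft.1 hb) hx
    have x2 : x ∈ KA (univ.map em) := KA_mono (map_subset_map.2 (subset_univ _)) hx
    by_cases hL : x ∈ L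
    · exact mem_union_left _ (mem_inter.2 ⟨f1 hL, x1⟩)
    · exact mem_union_right _ (mem_sdiff.2 ⟨x2, hL⟩)
  have u1 := (card_le_card up).trans (card_union_le _ _)
  have u2 := (card_le_card lo).trans (card_union_le _ _)
  rw [card_sdiff_of_subset hL1, hK, hL2, h, card_KA, card_map] at u2
  rw [h, card_KA, card_map] at u1
  have c1 := card_toLeft_add_card_toRight (u := S)
  have c2 := card_toLeft_add_card_toRight (u := S.toRight)
  have b1 : (B S.toRight.toLeft S.toRight.toRight).card ≤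
      S.toRight.toLeft.card * S.toRight.toRight.card := by
    rw [hB, ← smul_eq_mul]
    exact sum_le_card_nsmul _ _ _ fun x _ => card_filter_le _ _
  have b2 : 5 ≤ S.toRight.toRight.card → (B S.toRight.toLeft S.toRight.toRight).card ≤
      S.toRight.toLeft.card * (S.toRight.toRight.card - 1) + 1 := fun h5 => by
    rw [hB]
    exact bip r _ _ h5 fun x x' hx =>
      (card_le_card (filter_subset_filter _ (subset_univ _))).trans (h1 x x' hx)
  have b3 : 5 ≤ S.toRight.toLeft.card → (B S.toRight.toLeft S.toRight.toRight).card ≤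
      S.toRight.toRight.card * (S.toRight.toLeft.card - 1) + 1 := fun h5 => by
    rw [hB']
    exact bip (fun y x => r x y) _ _ h5 fun x x' hx =>
      (card_le_card (filter_subset_filter _ (subset_univ _))).trans (h2 x x' hx)
  generalize (B S.toRight.toLeft S.toRight.toRight).card = ρ at u1 b1 b2 b3
  generalize S.toLeft.card = j at u1 u2 c1
  generalize S.toRight.toLeft.card = u at c2 b1 b2 b3
  generalize S.toRight.toRight.card = w at c2 b1 b2 b3
  have u3 : j.choose 2 ≤ 20 := by omega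
  obtain rfl : j = 9 - u - w := by omega
  have hu : u ≤ 9 := by omega
  have hw : w ≤ 9 - u := by omega
  clear u2 c1 c2
  interval_cases u <;> interval_cases w <;> simp [Nat.choose] at u1 u3 <;> omega

lemma cD (t k : ℕ) (hk : k ≤ t + 1) (c : Fin (t + 1)) :
    (univ.filter fun y : Fin (t + 1) => (y - c).val < k).card = k := by
  have := Fin.card_filter_val_lt (n := t + 1) (m := k)
  rw [min_eq_right hk] at this
  exact (card_equiv (Equiv.subRight c) (by simp)).trans this

lemma cE (t k : ℕ) (hk : k ≤ t + 1) (h : k ≤ 4 ∨ k = 5 ∧ 5 ≤ t) (s : Fin (t + 1)) (hs : s ≠ 0) :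
    (univ.filter fun d : Fin (t + 1) => d.val < k ∧ (d + s).val < k).card ≤ 4 := by
  have a := cD t k hk 0
  simp only [sub_zero] at a
  rcases h with h | ⟨rfl, h⟩
  · exact (card_le_card fun d hd => by simp at hd ⊢; exact hd.1).trans (a.le.trans h)
  have hs' : s.val ≠ 0 := fun h => hs (Fin.ext h)
  obtain ⟨d, d1, d2⟩ : ∃ d : Fin (t + 1), d.val < 5 ∧ 5 ≤ (d + s).val := by
    by_cases h5 : 5 ≤ s.val
    · exact ⟨0, by simp, by simpa using h5⟩
    · refine ⟨⟨5 - s.val, by omega⟩, show 5 - s.val < 5 by omega, ?_⟩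
      rw [Fin.val_add, show 5 - s.val + s.val = 5 by omega, Nat.mod_eq_of_lt (by omega)]
  have : (univ.filter fun d : Fin (t + 1) => d.val < 5 ∧ (d + s).val < 5).card < 5 := by
    conv_rhs => rw [← a]
    refine card_lt_card ⟨fun d hd => by simp at hd ⊢; exact hd.1, fun hh => ?_⟩
    have := hh (mem_filter.2 ⟨mem_univ d, d1⟩)
    simp at this
    omega
  omega

lemma fam (a p t k e : ℕ) (hp : p ≤ t + 1) (hk : k ≤ t + 1) (h : k ≤ 4 ∨ k = 5 ∧ 5 ≤ t)
    (e1 : a.choose 2 ≤ e + 2) (e2 : e ≤ a.choose 2 + p * k) : Av (a + (p + (t + 1))) e := by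
  have := gen (α := Fin a) (fun (x : Fin p) (y : Fin (t + 1)) => (y - Fin.castLE hp x).val < k)
    ?_ ?_ e (by simpa using e1) (by simpa [cD t k hk] using e2)
  · simpa using this
  · intro x x' hx
    refine le_trans ?_ (cE t k hk h (Fin.castLE hp x - Fin.castLE hp x')
      (sub_ne_zero.2 fun h => hx (Fin.castLE_injective hp h)))
    exact (card_equiv (Equiv.subRight (Fin.castLE hp x)) (by simp)).le
  · intro y y' hy
    refine le_trans ?_ (cE t k hk h (y' - y) (sub_ne_zero.2 hy.symm))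
    refine card_le_card_of_injOn (fun x => y - Fin.castLE hp x) (fun x hx => ?_)
      fun x _ x' _ h => Fin.castLE_injective hp (sub_right_injective h)
    simp only [coe_filter, mem_univ, true_and, Set.mem_ofPred_eq] at hx ⊢
    rw [show y - Fin.castLE hp x + (y' - y) = y' - Fin.castLE hp x by abel]
    exact hx

def E : List (Fin 12 × Fin 12) := [(0, 9), (1, 3), (1, 4), (1, 6), (1, 7), (1, 8), (1, 10), (1, 11),
  (2, 3), (2, 4), (2, 7), (2, 8), (2, 9), (2, 11), (3, 6), (3, 8), (3, 9), (3, 10), (4, 6), (4, 7),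
  (4, 8), (4, 10), (4, 11), (6, 9), (6, 10), (6, 11), (7, 8), (7, 9), (7, 10), (8, 10), (8, 11),
  (9, 10), (9, 11)]

lemma sp : Av 12 33 := by
  have hi : Set.InjOn (fun z : Fin 12 × Fin 12 => s(z.1, z.2)) E.toFinset := by
    have : ∀ z ∈ E, ∀ w ∈ E, s(z.1, z.2) = s(w.1, w.2) → z = w := by decide +kernel
    intro z hz w hw
    exact this z (by simpa using hz) w (by simpa using hw)
  have hne : ∀ z ∈ E, z.1 ≠ z.2 := by decide +kernel
  refine ⟨Fin 12, inferInstance, inferInstance, E.toFinset.image fun z => s(z.1, z.2), by simp,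
    fun x hx => ?_, ?_, fun S hS => ?_⟩
  · obtain ⟨z, hz, rfl⟩ := mem_image.1 hx
    simpa [mem_KA] using hne z (by simpa using hz)
  · rw [card_image_of_injOn hi]
    decide +kernel
  · have : (E.toFinset.image fun z => s(z.1, z.2)) ∩ KA S =
        (E.toFinset.filter fun z => z.1 ∈ S ∧ z.2 ∈ S).image fun z => s(z.1, z.2) := by
      ext x
      simp only [mem_inter, mem_image, mem_filter]
      constructor
      · rintro ⟨⟨z, hz, rfl⟩, h⟩
        exact ⟨z, ⟨hz, (mem_KA.1 h).1, (mem_KA.1 h).2.1⟩, rfl⟩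
      · rintro ⟨z, ⟨hz, h⟩, rfl⟩
        exact ⟨⟨z, hz, rfl⟩, mem_KA.2 ⟨h.1, h.2, hne z (by simpa using hz)⟩⟩
    rw [this, card_image_of_injOn (hi.mono (coe_subset.2 (filter_subset _ _)))]
    obtain ⟨a, b, c, h1, h2, h3, h4⟩ := card_eq_three.1 (show Sᶜ.card = 3 by
      rw [card_compl, hS]; rfl)
    have h5 : ∀ v, v ∈ S ↔ v ≠ a ∧ v ≠ b ∧ v ≠ c := fun v => by
      rw [← not_iff_not, ← mem_compl, h4]
      simp only [mem_insert, mem_singleton, not_and_or, not_not]
    have : ∀ a b c : Fin 12, a ≠ b → a ≠ c → b ≠ c → (E.filter fun z =>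
        (z.1 ≠ a ∧ z.1 ≠ b ∧ z.1 ≠ c) ∧ z.2 ≠ a ∧ z.2 ≠ b ∧ z.2 ≠ c).length ≠ 18 := by
      decide +kernel
    have hn : E.Nodup := by decide +kernel
    simp only [h5]
    have h6 := this a b c h1 h2 h3
    rw [← List.toFinset_card_of_nodup (hn.filter _), List.toFinset_filter] at h6
    simpa using h6

lemma ch (n : ℕ) : 2 * n.choose 2 + n = n * n := by
  induction n with
  | zero => rfl
  | succ n ih =>
    rw [Nat.choose_succ_succ', Nat.choose_one_right]
    nlinarith

lemma half (n e : ℕ) (hn : 10 ≤ n) (he : 2 * e ≤ n.choose 2) : Av n e := by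
  have hex : ∃ a : ℕ, e + 2 < (a + 1).choose 2 := ⟨e + 3, by have := ch (e + 3 + 1); nlinarith⟩
  obtain ⟨a, a1, a2⟩ : ∃ a : ℕ, e + 2 < (a + 1).choose 2 ∧ a.choose 2 ≤ e + 2 := by
    refine ⟨Nat.find hex, Nat.find_spec hex, ?_⟩
    cases h : Nat.find hex with
    | zero => simp
    | succ b => exact not_lt.1 (Nat.find_min hex (by omega))
  rw [Nat.choose_succ_succ', Nat.choose_one_right] at a1
  have c1 := ch n
  have c2 := ch a
  change _ < _ + a.choose 2 at a1
  have han : a < n := by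
    by_contra h
    have := Nat.choose_le_choose 2 (not_lt.1 h)
    nlinarith
  obtain ⟨m, rfl⟩ : ∃ m, n = a + (m + 1) := ⟨n - a - 1, by omega⟩
  by_cases hm : 10 ≤ m
  · have := fam a ((m + 1) / 2) (m / 2) 5 e (by omega) (by omega) (by omega) a2 (by
      by_contra h
      have h1 : 2 * a.choose 2 + 5 * m + 2 ≤ 2 * e := by omega
      have h2 : 5 * m + 8 ≤ 2 * a := by omega
      nlinarith)
    rwa [show (m + 1) / 2 + (m / 2 + 1) = m + 1 by omega] at this
  by_cases h12 : a + (m + 1) = 12 ∧ e = 33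
  · rw [h12.1, h12.2]
    exact sp
  by_cases h15 : a + (m + 1) = 15 ∧ e = 52
  · rw [h15.1, h15.2]
    exact (fam 11 2 1 0 53 le_rfl (by decide) (by decide) (by decide) (by decide)).compl
  have := fam a ((m + 1) / 2) (m / 2) (min (m / 2 + 1) 4) e (by omega) (by omega) (by omega) a2 (by
    by_contra h
    have hm' : m ≤ 9 := by omega
    have ha : a ≤ 30 := by
      by_contra h'
      nlinarith
    clear hex
    generalize a.choose 2 = x at h c2 a1 a2
    generalize (a + (m + 1)).choose 2 = y at c1 he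
    interval_cases m <;> norm_num at h <;> interval_cases a <;> omega)
  rwa [show (m + 1) / 2 + (m / 2 + 1) = m + 1 by omega] at this

theorem result (n e : ℕ) (hn : 9 ≤ n) (he : e ≤ n.choose 2) :
    Forces n e ↔ n = 9 ∧ e = 18 := by
  constructor
  · intro h
    by_contra hc
    refine Av.not ?_ h
    rcases hn.eq_or_lt with rfl | hn'
    · obtain ⟨F, f1, f2⟩ := exists_subset_card_eq (s := KA (univ : Finset (Fin 9))) (n := e)
        (by rw [card_KA]; simpa using he)
      refine ⟨Fin 9, inferInstance, inferInstance, F, by simp, f1, f2, fun S hS => ?_⟩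
      rw [eq_univ_of_card S (by simpa using hS), inter_eq_left.2 f1, f2]
      exact fun h => hc ⟨rfl, h⟩
    · by_cases h2 : 2 * e ≤ n.choose 2
      · exact half n e hn' h2
      · have := (half n (n.choose 2 - e) hn' (by omega)).compl
        rwa [show n.choose 2 - (n.choose 2 - e) = e by omega] at this
  · rintro ⟨rfl, rfl⟩ V _ G h1 h2
    exact ⟨univ, h1, by simpa using h2⟩

end Pool.Agent.Results.MP_3da5e8_co.Only
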